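import Pool.Agent.ZPT.Stmts
import Pool.Agent.ZPK.StmtsG
import Pool.Agent.Helper79_ZPK.Asm

/-!
MP_6e1a06_nt (Zilber-Pink for curves in `Y(1)^n`), Question 1 for 100 percent of the translates of
every curve over the algebraic numbers by vectors of a number field different from `ℚ`, every `n`.

Definitions used (files `Pool/Agent/ZPT/Defs.lean`, `ZPT/Stmts.lean`):
* `J` is the `j`-function as in the frozen statement S17349, `Isog` its relation `R`, `Atyp` its
  condition on strongly atypical points (three coordinates chained by isogenies, or two disjoint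
  isogenous pairs);
* `V P` is the zero set in `ℂ^n` of an ideal `P` of `ℂ[x_1, .., x_n]`;
* `DefQbar P`: `P` is generated by polynomials with algebraic coefficients;
* `Q1For P c`: the assertion of Question 1 for the translate `V P + c` (if no two coordinates are
  identically isogenous on it then it has only finitely many strongly atypical points).
-/

set_option autoImplicit false

namespace Pool.Agent.Results.MP_6e1a06_nt.NumberFieldTranslates

open Pool.Agent.ZPT

/-- Let `P` be a prime ideal of `ℂ[x_1, .., x_n]`, generated by polynomials with algebraic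
coefficients, such that `ℂ[x]/P` has dimension 1 (every irreducible curve over `ℚbar`, no condition
at infinity), and let `b_1, .., b_m`, `m ≥ 2`, be algebraic numbers that are linearly independent
over `ℚ` (for instance an integral basis of a number field `K ≠ ℚ`).  Then Question 1 holds for the
translates of `V P` by `c`, `c_i = (Σ_r a_ir b_r)/N`, for all but `o(H^(n m + 1))` of the integers
`|a_ir| ≤ H`, `1 ≤ N ≤ H`. -/
theorem result (n : ℕ) (P : Ideal (MvPolynomial (Fin n) ℂ)) (hP : P.IsPrime)
    (hdim : ringKrullDim (MvPolynomial (Fin n) ℂ ⧸ P) = 1) (hQ : DefQbar P)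
    (m : ℕ) (b : Fin m → ℂ) (hm : 2 ≤ m) (hb : ∀ r, IsAlgebraic ℚ (b r))
    (hli : LinearIndependent ℚ b) (ε : ℝ) (hε : 0 < ε) :
    ∃ H₀ : ℕ, ∀ H : ℕ, H₀ ≤ H → ∀ A : Finset ((Fin n → Fin m → ℤ) × ℤ),
      (∀ w ∈ A, (∀ i r, |w.1 i r| ≤ H) ∧ 1 ≤ w.2 ∧ w.2 ≤ H ∧
        ¬ Q1For P (fun i => (∑ r, (w.1 i r : ℂ) * b r) / (w.2 : ℂ))) →
      (A.card : ℝ) ≤ ε * (H : ℝ) ^ (n * m + 1) :=
  Pool.Agent.ZPK.H79.asm n P hP hdim hQ m b hm hb hli ε hε

end Pool.Agent.Results.MP_6e1a06_nt.NumberFieldTranslates
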