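import Pool.Agent.ZPT.Defs
import Pool.Agent.ZPU.Defs
import Pool.Agent.ZPU.StmtsC
import Pool.Agent.Helper79_ZPU.Asm

/-!
MP_6e1a06_nt (Zilber-Pink for curves in `Y(1)^n`), Question 1 for rational curves, every `n`.

Definitions used (files `Pool/Agent/ZPT/Defs.lean`, `Pool/Agent/ZPU/Defs.lean`, `ZPU/StmtsC.lean`):
* `J` is the `j`-function as in the frozen statement S17349, `Isog` its relation `R`, `Atyp` its
  condition on strongly atypical points (three coordinates chained by isogenies, or two disjoint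
  isogenous pairs);
* `crv l F G` is the curve of the points `x ∈ ℂ^n` with `x_i = l F_i(t)/G_i(t)`, `t ∈ ℂ`, all
  `G_i(t) ≠ 0` (its Zariski closure has at most one more point, the value at `t = ∞`);
* `bar p A` is the reduction of `A ∈ ℤ[t]` modulo `p`;
* `Hyp p d D F G`: `1 ≤ D_i ≤ d`, `F_i` and `G_i` have degree at most `D_i`, and modulo `p` the `2 n`
  binary forms `F_i`, `G_i` of degree `D_i` have pairwise no common zero on the projective line
  (the polynomials are coprime and at most one of the `2 n` coefficients at `t ^ D_i` is divisible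
  by `p`); in particular `F_i/G_i` has degree `D_i`;
* `HypQ D F G`: the same over `ℚ` instead of modulo `p` (disjoint zeros and poles);
* `HypP D F G`: `F_i/G_i` has degree `D_i ≥ 1` and `F_i/G_i`, `F_j/G_j` have no common pole for
  `i ≠ j` (nothing on the zeros);
* `pv a` is the polynomial with coefficient vector `a`.
-/

set_option autoImplicit false

namespace Pool.Agent.Results.MP_6e1a06_nt.RationalCurves

open Polynomial Pool.Agent.ZPT Pool.Agent.ZPU

/-- (1) If `p > 40 (d + 1)`, `Hyp p d D F G` and `|l|_p > 1`, then the curve `x_i = l F_i(t)/G_i(t)` in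
`Y(1)^n` has only finitely many strongly atypical points.  Hence the same holds (2) for every
rational curve over `ℚ` whose coordinates have pairwise disjoint zeros and poles, for all its
homotheties `l f` with `l ∉ ℤ[1/M]`, `M = M(f)`; (3) for every rational curve over `ℚ` without common
poles, for 100 percent of the affine images `(f + a)/N`; (4) for 100 percent of all the curves
`x_i = F_i(t)/(N G_i(t))` with polynomials of degree at most `d`, ordered by the size of all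
coefficients and of `N`. -/
theorem result (n : ℕ) :
    (∀ (p d : ℕ) (D : Fin n → ℕ) (F G : Fin n → ℤ[X]), p.Prime → 40 * (d + 1) < p →
      Hyp p d D F G → ∀ l : ℚ, 1 < padicNorm p l →
      {x : Fin n → ℂ | x ∈ crv l F G ∧ Atyp x}.Finite) ∧
    (∀ (D : Fin n → ℕ) (F G : Fin n → ℤ[X]), HypQ D F G → ∃ M : ℕ, 1 ≤ M ∧ ∀ l : ℚ,
      (∃ p : ℕ, p.Prime ∧ ¬ p ∣ M ∧ 1 < padicNorm p l) →
      {x : Fin n → ℂ | x ∈ crv l F G ∧ Atyp x}.Finite) ∧
    (∀ (D : Fin n → ℕ) (F G : Fin n → ℤ[X]), HypP D F G → ∀ ε : ℝ, 0 < ε →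
      ∃ H₀ : ℕ, ∀ H : ℕ, H₀ ≤ H → ∀ A : Finset ((Fin n → ℤ) × ℤ),
      (∀ w ∈ A, (∀ i, |w.1 i| ≤ H) ∧ 1 ≤ w.2 ∧ w.2 ≤ H ∧
        ¬ {x : Fin n → ℂ | x ∈ crv (1 / (w.2 : ℚ)) (fun i => F i + C (w.1 i) * G i) G ∧
          Atyp x}.Finite) →
      (A.card : ℝ) ≤ ε * (H : ℝ) ^ (n + 1)) ∧
    (∀ d : ℕ, 1 ≤ d → ∀ ε : ℝ, 0 < ε → ∃ H₀ : ℕ, ∀ H : ℕ, H₀ ≤ H →
      ∀ A : Finset ((Fin n → Fin (d + 1) → ℤ) × (Fin n → Fin (d + 1) → ℤ) × ℤ),
      (∀ w ∈ A, (∀ i j, |w.1 i j| ≤ H) ∧ (∀ i j, |w.2.1 i j| ≤ H) ∧ 1 ≤ w.2.2 ∧ w.2.2 ≤ H ∧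
        ¬ {x : Fin n → ℂ | x ∈ crv (1 / (w.2.2 : ℚ)) (fun i => pv (w.1 i))
          (fun i => pv (w.2.1 i)) ∧ Atyp x}.Finite) →
      (A.card : ℝ) ≤ ε * (H : ℝ) ^ (2 * n * (d + 1) + 1)) := by
  obtain ⟨fnu, den, hyq, afd⟩ := Pool.Agent.ZPU.H79.asm
  refine ⟨?_, ?_, ?_, ?_⟩
  · intro p d D F G hp hpd hH l hl
    exact fnu p hp d n D F G hpd hH l hl
  · intro D F G hH
    obtain ⟨M, hM, h⟩ := hyq (Finset.univ.sup D) n D F G
      (fun i => Finset.le_sup (f := D) (Finset.mem_univ i)) hH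
    refine ⟨M, hM, ?_⟩
    rintro l ⟨p, hp, hpM, hl⟩
    obtain ⟨h1, h2⟩ := h p hp hpM
    exact fnu p hp _ n D F G h1 h2 l hl
  · intro D F G hH ε hε
    exact afd n D F G hH ε hε
  · intro d hd ε hε
    exact den n d hd ε hε

end Pool.Agent.Results.MP_6e1a06_nt.RationalCurves
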