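import Pool.Agent.ZPT.Defs
import Pool.Agent.ZPT.Stmts
import Pool.Agent.ZP3.Defs
import Pool.Agent.ZP3.StmtsP
import Pool.Agent.Helper51_ZP3.Asm
import Pool.Agent.Helper24_ZP3.N3A
import Pool.Agent.Helper81_ZP3.N3B

/-!
MP_6e1a06_nt (Zilber-Pink for curves in `Y(1)^n`), Question 1 for translates: points with three
isogenous coordinates, and Question 1 itself for `n = 3`.

Definitions used (files `Pool/Agent/ZPT/Defs.lean`, `ZPT/Stmts.lean`, `ZP3/Defs.lean`):
* `J` is the `j`-function as in the frozen statement S17349, `Isog` its relation `R`, `V P` the zero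
  set, `DefQbar P` the existence of generators with algebraic coefficients, `Atyp` the condition of
  S17349 on strongly atypical points (three coordinates chained by isogenies, or two disjoint
  isogenous pairs), `Atyp3` its first half;
* `BddTriples P`: there is `B` such that no point of `V P` has three coordinates of absolute value
  greater than `B`; that is, the closure of the curve in `(P^1)^n` has no point with three infinite
  coordinates;
* `T3For P c`: if no two coordinates are identically isogenous on `V P + c`, then only finitely many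
  points of `V P + c` satisfy `Atyp3`; `Q1For P c`: the same with `Atyp`;
* `Qb` is the field of algebraic numbers.
-/

set_option autoImplicit false

namespace Pool.Agent.Results.MP_6e1a06_nt.ThreeCoordinates

open Pool.Agent.ZPT Pool.Agent.ZP3

/-- Let `P` be a prime ideal of `ℂ[x_1, .., x_n]` generated by polynomials with algebraic
coefficients, with zero set a curve whose closure in `(P^1)^n` has no point with three infinite
coordinates.  There are `p₀` and a finite set `E` of algebraic numbers such that for every prime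
`p ≥ p₀`, every embedding `σ` of the field of algebraic numbers in `ℂ_p` and every rational vector
`c` with `|c_i| = p` and `|c_i - σ α c_j| = p` in `ℂ_p` for `i ≠ j` and `α` in `E`, only finitely
many points of the translate `V P + c` have three isogenous coordinates, unless two coordinates are
identically isogenous.  Consequently this holds for the translates by 100 percent of the rational
points `(a_1/N, .., a_n/N)`; and for `n = 3` this is Q1 for these translates. -/
theorem result (n : ℕ) (P : Ideal (MvPolynomial (Fin n) ℂ)) (hP : P.IsPrime)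
    (hdim : ringKrullDim (MvPolynomial (Fin n) ℂ ⧸ P) = 1) (hQ : DefQbar P)
    (hB : BddTriples P) :
    (∃ (p₀ : ℕ) (E : Finset Qb), ∀ (p : ℕ) [Fact p.Prime], p₀ ≤ p → ∀ (σ : Qb →+* ℂ_[p])
      (c : Fin n → ℚ), (∀ i, padicNorm p (c i) = p) →
      (∀ i j, i ≠ j → ∀ α ∈ E, ‖((c i : ℚ) : ℂ_[p]) - σ α * ((c j : ℚ) : ℂ_[p])‖ = p) →
      T3For P (fun i => ((c i : ℚ) : ℂ))) ∧
    (∀ ε : ℝ, 0 < ε → ∃ H₀ : ℕ, ∀ H : ℕ, H₀ ≤ H → ∀ A : Finset ((Fin n → ℤ) × ℤ),
      (∀ w ∈ A, (∀ i, |w.1 i| ≤ H) ∧ 1 ≤ w.2 ∧ w.2 ≤ H ∧
        ¬ T3For P (fun i => (w.1 i : ℂ) / (w.2 : ℂ))) → (A.card : ℝ) ≤ ε * (H : ℝ) ^ (n + 1)) ∧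
    (n = 3 → ∀ c : Fin n → ℂ, T3For P c → Q1For P c) := by
  obtain ⟨h1, h2⟩ := Pool.Agent.ZP3.H51.asm n P hP hdim hQ
    (Pool.Agent.ZP3.H81.n3b Pool.Agent.ZP3.H24.n3a n P hP hdim hB)
  refine ⟨h1, h2, ?_⟩
  intro hn c h hne
  refine (h hne).subset ?_
  rintro x ⟨hx, hA⟩
  refine ⟨hx, ?_⟩
  rcases hA with hA | ⟨i, j, k, l, hij, hik, hil, hjk, hjl, hkl, _, _⟩
  · exact hA
  · exfalso
    have hi := i.isLt
    have hj := j.isLt
    have hk := k.isLt
    have hl := l.isLt
    rw [Ne, Fin.ext_iff] at hij hik hil hjk hjl hkl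
    omega

end Pool.Agent.Results.MP_6e1a06_nt.ThreeCoordinates
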