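import Pool.Agent.ZPT.Defs
import Pool.Agent.ZPT.Stmts
import Pool.Agent.ZPT.StmtsB
import Pool.Agent.Helper51_ZPT.Asm
import Pool.Agent.Helper76_ZPT.MP
import Pool.Agent.Helper92_ZPT.ND

/-!
MP_6e1a06_nt (Zilber-Pink for curves in `Y(1)^n`), Question 1 for translates.

Definitions used (files `Pool/Agent/ZPT/Defs.lean`, `Stmts.lean`, `StmtsB.lean`):
* `J` is the `j`-function as in the frozen statement S17349, `Isog` its relation `R`, `Atyp` its
  condition on strongly atypical points, `V P` the zero set, `DefQbar P` the existence of generators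
  with algebraic coefficients;
* `BddPairs P`: there is `B` such that no point of `V P` has two coordinates of absolute value
  greater than `B`; that is, the closure of the curve in `(P^1)^n` has no point with two infinite
  coordinates;
* `Q1For P c`: if no two coordinates are identically isogenous on `V P + c`, then only finitely many
  points of `V P + c` are strongly atypical;
* `Large σ C c`: `‖σ (c i)‖ > C` for all `i`, or `C = 1` and `‖σ (c i)‖ > 1` for all `i` but one;
* `Qb` is the field of algebraic numbers.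
-/

set_option autoImplicit false

namespace Pool.Agent.Results.MP_6e1a06_nt.TranslatesOfCurves

open Pool.Agent.ZPT

/-- Let `P` be a prime ideal of `ℂ[x_1, .., x_n]` generated by polynomials with algebraic
coefficients, with zero set a curve whose closure in `(P^1)^n` has no point with two infinite
coordinates.  There is `p₀` such that for every prime `p ≥ 5` and every embedding `σ` of the field of
algebraic numbers in `ℂ_p` there is a constant `C`, equal to `1` if `p ≥ p₀`, such that Q1 holds for
the translate `V P + c` for all algebraic `c` with `|σ c_i| > C` for all `i`, or `C = 1` and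
`|σ c_i| > 1` for all `i` but one.  Consequently Q1 holds for the translates by 100 percent of the
rational points `(a_1/N, .., a_n/N)`. -/
theorem result (n : ℕ) (P : Ideal (MvPolynomial (Fin n) ℂ)) (hP : P.IsPrime)
    (hdim : ringKrullDim (MvPolynomial (Fin n) ℂ ⧸ P) = 1) (hQ : DefQbar P) (hB : BddPairs P) :
    (∃ p₀ : ℕ, ∀ (p : ℕ) [Fact p.Prime], 5 ≤ p → ∀ σ : Qb →+* ℂ_[p], ∃ C : ℝ, (p₀ ≤ p → C = 1) ∧
      ∀ c : Fin n → Qb, Large σ C c → Q1For P (fun i => (c i : ℂ))) ∧
    ∀ ε : ℝ, 0 < ε → ∃ H₀ : ℕ, ∀ H : ℕ, H₀ ≤ H → ∀ A : Finset ((Fin n → ℤ) × ℤ),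
      (∀ w ∈ A, (∀ i, |w.1 i| ≤ H) ∧ 1 ≤ w.2 ∧ w.2 ≤ H ∧
        ¬ Q1For P (fun i => (w.1 i : ℂ) / (w.2 : ℂ))) → (A.card : ℝ) ≤ ε * (H : ℝ) ^ (n + 1) :=
  H51.asm0 H76.mp n P hP hdim hQ (H92.nd n P hP hdim hB)

end Pool.Agent.Results.MP_6e1a06_nt.TranslatesOfCurves
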